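import Mathlib

/-!
# Definitions for `MP_d064d6_lc`: the belief-propagation map of the antiferromagnetic Potts model
-/

open Finset

namespace Pool.Agent.Lib_MP_d064d6_lc

/-- The antiferromagnetic Potts interaction matrix `A = 1 1ᵀ − (1−β) I` on `q` colours. -/
def pottsMatrix (q : ℕ) (β : ℝ) : Matrix (Fin q) (Fin q) ℝ :=
  Matrix.of (fun _ _ => (1 : ℝ)) - (1 - β) • (1 : Matrix (Fin q) (Fin q) ℝ)

/-- `G_c(μ) = E_{τ ∼ μ} ∏_i A_{c, τ(i)}` for a measure `μ` on `[q]^d` given by its weights. -/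
def bpWeight {q d : ℕ} (A : Matrix (Fin q) (Fin q) ℝ) (μ : (Fin d → Fin q) → ℝ) (c : Fin q) : ℝ :=
  ∑ τ, μ τ * ∏ i, A c (τ i)

/-- The belief-propagation map `F_A(μ) = G(μ) / ∑_c G_c(μ)`. -/
noncomputable def bpMap {q d : ℕ} (A : Matrix (Fin q) (Fin q) ℝ) (μ : (Fin d → Fin q) → ℝ) :
    Fin q → ℝ :=
  fun c => bpWeight A μ c / ∑ b, bpWeight A μ b

/-- The product measure `p_1 ⊗ ⋯ ⊗ p_d` on `[q]^d`. -/
def prodMeasure {q d : ℕ} (p : Fin d → Fin q → ℝ) : (Fin d → Fin q) → ℝ :=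
  fun τ => ∏ i, p i (τ i)

/-- `𝓕^prod_{A,d}`: the image of the product measures under the belief-propagation map. -/
def bpImageProd {q : ℕ} (A : Matrix (Fin q) (Fin q) ℝ) (d : ℕ) : Set (Fin q → ℝ) :=
  {x | ∃ p : Fin d → Fin q → ℝ, (∀ i, p i ∈ stdSimplex ℝ (Fin q)) ∧
    x = bpMap A (prodMeasure p)}

end Pool.Agent.Lib_MP_d064d6_lc
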