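import Pool.Agent.Lib_MP_d064d6_lc.Defs

/-!
# Convexity of the belief-propagation image for the antiferromagnetic Potts model

For `q ≥ 3`, `d ≥ 1` and `max{0, 1 - q/(d+1)} ≤ β ≤ 1` we determine exactly when the image
`𝓕^prod_{A,d}` of the product measures on `[q]^d` under the belief-propagation map of
`A = 1 1ᵀ - (1-β) I` is convex: exactly when `q = 3`, or `d = 1`, or `β = 1`, or
(`β = 0` and `q = d + 1`).  In particular the answer to the question whether it is always convex is
negative.

Idea of the non-convexity proof (`0 < β < 1`, `q ≥ 4`, `d ≥ 2`): the functional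
`X_0 + β^(d-2) (∑_{c ≠ 0,3} X_c) - β^(d-2) (q - 3 + 2β) X_3` is nonnegative on all vertices
`(β^{n_c})_c`, `∑ n_c = d` (Bernoulli's inequality), and vanishes exactly on the vertices with
counts `(d-2) e_0 + e_a + e_b`, `a ≠ b`, `a, b ≠ 3`.  A product measure whose image lies on this
face is a point mass at `0` in all but two coordinates, and in those two coordinates the supports
are disjoint; hence the barycentre of the three vertices with `{a,b} ⊂ {0,1,2}` is not attained.
-/

open Finset

namespace Pool.Agent.Lib_MP_d064d6_lc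

lemma pottsMatrix_apply (q : ℕ) (β : ℝ) (c b : Fin q) :
    pottsMatrix q β c b = if c = b then β else 1 := by
  unfold pottsMatrix
  by_cases h : c = b
  · simp [h]
  · simp [h]

/-- closed form of the weight of a product measure -/
lemma weight_prod {q d : ℕ} (β : ℝ) (p : Fin d → Fin q → ℝ)
    (hp : ∀ i, p i ∈ stdSimplex ℝ (Fin q)) (c : Fin q) :
    bpWeight (pottsMatrix q β) (prodMeasure p) c = ∏ i, (1 - (1 - β) * p i c) := by
  unfold bpWeight prodMeasure
  have h1 : ∀ i, (∑ b, p i b * pottsMatrix q β c b) = 1 - (1 - β) * p i c := by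
    intro i
    have h2 : ∀ b, p i b * pottsMatrix q β c b = p i b - (if c = b then (1 - β) * p i b else 0) := by
      intro b
      rw [pottsMatrix_apply]
      split_ifs <;> ring
    rw [Finset.sum_congr rfl (fun b _ => h2 b), Finset.sum_sub_distrib, (hp i).2]
    simp
  calc ∑ τ : Fin d → Fin q, (∏ i, p i (τ i)) * ∏ i, pottsMatrix q β c (τ i)
      = ∑ τ : Fin d → Fin q, ∏ i, (p i (τ i) * pottsMatrix q β c (τ i)) := by
        apply Finset.sum_congr rfl
        intro τ _
        rw [Finset.prod_mul_distrib]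
    _ = ∏ i, ∑ b, p i b * pottsMatrix q β c b := by
        rw [Finset.prod_univ_sum]
        simp
    _ = _ := Finset.prod_congr rfl (fun i _ => h1 i)

/-- the number of occurrences of colour `c` in `τ` -/
def cnt {q d : ℕ} (τ : Fin d → Fin q) (c : Fin q) : ℕ := #{i | τ i = c}

lemma cnt_sum {q d : ℕ} (τ : Fin d → Fin q) : ∑ c, cnt τ c = d := by
  unfold cnt
  have := Finset.card_eq_sum_card_fiberwise (s := (univ : Finset (Fin d))) (t := (univ : Finset (Fin q)))
    (f := τ) (by intro x _; simp)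
  simpa using this.symm

lemma prod_A {q d : ℕ} (β : ℝ) (τ : Fin d → Fin q) (c : Fin q) :
    ∏ i, pottsMatrix q β c (τ i) = β ^ cnt τ c := by
  unfold cnt
  have : ∀ i, pottsMatrix q β c (τ i) = if τ i = c then β else 1 := by
    intro i
    rw [pottsMatrix_apply]
    by_cases h : c = τ i
    · simp [h]
    · simp [h, Ne.symm (Ne.intro h)]
  rw [Finset.prod_congr rfl (fun i _ => this i), Finset.prod_ite]
  simp

/-- expansion of a linear functional of the weights -/
lemma functional_expand {q d : ℕ} (β : ℝ) (μ : (Fin d → Fin q) → ℝ) (w : Fin q → ℝ) :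
    ∑ c, w c * bpWeight (pottsMatrix q β) μ c = ∑ τ, μ τ * ∑ c, w c * β ^ cnt τ c := by
  unfold bpWeight
  simp_rw [prod_A, Finset.mul_sum]
  rw [Finset.sum_comm]
  apply Finset.sum_congr rfl
  intro τ _
  apply Finset.sum_congr rfl
  intro c _
  ring

/-- Bernoulli's inequality, at an arbitrary integer base point -/
lemma bern {β : ℝ} (h0 : 0 < β) (h1 : β < 1) (m n : ℕ) :
    β ^ m * (1 - (1 - β) * ((n : ℝ) - m)) ≤ β ^ n := by
  rcases le_total m n with h | h
  · obtain ⟨k, rfl⟩ := Nat.exists_eq_add_of_le h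
    have hb := one_add_mul_le_pow (a := β - 1) (by linarith) k
    have : 1 + (β - 1) = β := by ring
    rw [this] at hb
    rw [pow_add]
    apply mul_le_mul_of_nonneg_left _ (by positivity)
    push_cast
    nlinarith [hb]
  · obtain ⟨k, rfl⟩ := Nat.exists_eq_add_of_le h
    rw [pow_add, mul_assoc]
    have hpos : 0 < β ^ n := by positivity
    have hb := one_add_mul_le_pow (a := 1 - β) (by linarith) k
    have h3 : β ^ k * (1 + (1 - β)) ^ k ≤ 1 := by
      rw [← mul_pow]
      apply pow_le_one₀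
      · nlinarith
      · nlinarith [sq_nonneg (1 - β)]
    have h4 : β ^ k * (1 - (1 - β) * ((n : ℝ) - ((n + k : ℕ) : ℝ))) ≤ 1 := by
      push_cast
      calc β ^ k * (1 - (1 - β) * ((n : ℝ) - (n + k))) = β ^ k * (1 + k * (1 - β)) := by ring
        _ ≤ β ^ k * (1 + (1 - β)) ^ k := mul_le_mul_of_nonneg_left hb (by positivity)
        _ ≤ 1 := h3
    calc β ^ n * (β ^ k * (1 - (1 - β) * ((n : ℝ) - ((n + k : ℕ) : ℝ)))) ≤ β ^ n * 1 :=
          mul_le_mul_of_nonneg_left h4 hpos.le
      _ = β ^ n := by ring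

/-- strictness in Bernoulli's inequality -/
lemma bern_strict {β : ℝ} (h0 : 0 < β) (h1 : β < 1) (m n : ℕ) (hn : n ≠ m) (hn' : n ≠ m + 1) :
    β ^ m * (1 - (1 - β) * ((n : ℝ) - m)) < β ^ n := by
  rcases lt_or_ge n m with h | h
  · -- n < m
    obtain ⟨k, rfl⟩ := Nat.exists_eq_add_of_lt h
    have hb := bern h0 h1 (n + k) n
    have hpos : 0 < β ^ (n + k) := by positivity
    push_cast at hb ⊢
    have e : β ^ (n + k + 1) = β ^ (n + k) * β := pow_succ _ _
    rw [e]
    have hk : (0:ℝ) ≤ k := Nat.cast_nonneg k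
    nlinarith [mul_pos hpos (mul_pos (sub_pos.2 h1) (sub_pos.2 h1)), mul_nonneg hpos.le (mul_nonneg hk (mul_pos (sub_pos.2 h1) (sub_pos.2 h1)).le)]
  · obtain ⟨k, rfl⟩ := Nat.exists_eq_add_of_le h
    obtain ⟨j, rfl⟩ : ∃ j, k = j + 2 := by
      refine ⟨k - 2, ?_⟩
      omega
    have hb := bern h0 h1 0 (j + 1)
    have hpos : 0 < β ^ m := by positivity
    rw [pow_add]
    apply mul_lt_mul_of_pos_left _ hpos
    push_cast at hb ⊢
    have e : β ^ (j + 2) = β ^ (j + 1) * β := pow_succ _ _
    rw [e]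
    have hj : (0:ℝ) ≤ j := Nat.cast_nonneg j
    nlinarith [mul_pos h0 (sub_pos.2 h1), mul_nonneg hj (mul_pos (sub_pos.2 h1) (sub_pos.2 h1)).le, mul_pos (sub_pos.2 h1) (sub_pos.2 h1), mul_le_mul_of_nonneg_right hb h0.le]

lemma weight_nonneg {q d : ℕ} {β : ℝ} (h0 : 0 ≤ β) (_h1 : β ≤ 1) (p : Fin d → Fin q → ℝ)
    (hp : ∀ i, p i ∈ stdSimplex ℝ (Fin q)) (c : Fin q) :
    0 ≤ ∏ i, (1 - (1 - β) * p i c) := by
  apply Finset.prod_nonneg
  intro i _
  have h2 : p i c ≤ 1 := by
    have := (hp i).2
    calc p i c ≤ ∑ b, p i b := Finset.single_le_sum (fun b _ => (hp i).1 b) (Finset.mem_univ c)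
      _ = 1 := this
  have h3 : 0 ≤ p i c := (hp i).1 c
  nlinarith

lemma point_mem {q d : ℕ} (β : ℝ) (τ : Fin d → Fin q) :
    (fun c => β ^ cnt τ c / ∑ b, β ^ cnt τ b) ∈ bpImageProd (pottsMatrix q β) d := by
  have hp : ∀ i, (Pi.single (τ i) (1:ℝ) : Fin q → ℝ) ∈ stdSimplex ℝ (Fin q) :=
    fun i => single_mem_stdSimplex ℝ (τ i)
  refine ⟨fun i => Pi.single (τ i) 1, hp, ?_⟩
  have key : ∀ c, bpWeight (pottsMatrix q β) (prodMeasure fun i => Pi.single (τ i) (1:ℝ)) c
      = β ^ cnt τ c := by
    intro c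
    rw [weight_prod β _ hp]
    have : ∀ i, (1 - (1 - β) * (Pi.single (τ i) (1:ℝ) : Fin q → ℝ) c) = if τ i = c then β else 1 := by
      intro i
      by_cases h : τ i = c
      · simp [h]
      · simp [h, Ne.symm (Ne.intro h)]
    rw [Finset.prod_congr rfl (fun i _ => this i), Finset.prod_ite]
    simp [cnt]
  funext c
  simp only [bpMap, key]

/-- From convexity: a conic combination of three vertex vectors is a vector of product weights. -/
lemma conic {q d : ℕ} {β : ℝ} (h0 : 0 ≤ β) (h1 : β ≤ 1)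
    (hconv : Convex ℝ (bpImageProd (pottsMatrix q β) d))
    (τ : Fin 3 → Fin d → Fin q) (hpos : ∀ k, 0 < ∑ b, β ^ cnt (τ k) b) :
    ∃ p : Fin d → Fin q → ℝ, (∀ i, p i ∈ stdSimplex ℝ (Fin q)) ∧ ∃ κ : ℝ, 0 < κ ∧
      ∀ c, ∏ i, (1 - (1 - β) * p i c) = κ * ∑ k, β ^ cnt (τ k) c := by
  set S : Fin 3 → ℝ := fun k => ∑ b, β ^ cnt (τ k) b with hS
  have hSpos : 0 < ∑ k, S k := Finset.sum_pos (fun k _ => hpos k) Finset.univ_nonempty
  have hmem := hconv.sum_mem (t := (Finset.univ : Finset (Fin 3)))
    (w := fun k => S k / ∑ k, S k)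
    (z := fun k => fun c => β ^ cnt (τ k) c / ∑ b, β ^ cnt (τ k) b)
    (fun k _ => div_nonneg (hpos k).le hSpos.le)
    (by rw [← Finset.sum_div]; exact div_self hSpos.ne')
    (fun k _ => point_mem β (τ k))
  obtain ⟨p, hp, hpe⟩ := hmem
  refine ⟨p, hp, ?_⟩
  have hc : ∀ c, (∑ k, β ^ cnt (τ k) c) / ∑ k, S k =
      (∏ i, (1 - (1 - β) * p i c)) / ∑ b, ∏ i, (1 - (1 - β) * p i b) := by
    intro c
    have := congrFun hpe c
    simp only [bpMap, weight_prod β p hp, Finset.sum_apply, Pi.smul_apply, smul_eq_mul] at this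
    rw [← this, Finset.sum_div]
    apply Finset.sum_congr rfl
    intro k _
    have hk : S k ≠ 0 := (hpos k).ne'
    change _ = S k / _ * (_ / S k)
    field_simp
  have hne : (∑ b, ∏ i, (1 - (1 - β) * p i b)) ≠ 0 := by
    intro h
    have h2 : ∀ c, (∑ k, β ^ cnt (τ k) c) / ∑ k, S k = 0 := by
      intro c
      rw [hc c, h, div_zero]
    have h3 : ∑ c, (∑ k, β ^ cnt (τ k) c) / ∑ k, S k = 0 := Finset.sum_eq_zero (fun c _ => h2 c)
    rw [← Finset.sum_div, Finset.sum_comm] at h3
    have h4 : (∑ k, ∑ c, β ^ cnt (τ k) c) / ∑ k, S k = 1 := div_self hSpos.ne'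
    rw [h4] at h3
    exact one_ne_zero h3
  have hGpos : 0 < ∑ b, ∏ i, (1 - (1 - β) * p i b) :=
    lt_of_le_of_ne (Finset.sum_nonneg (fun c _ => weight_nonneg h0 h1 p hp c)) (Ne.symm hne)
  refine ⟨(∑ b, ∏ i, (1 - (1 - β) * p i b)) / ∑ k, S k, div_pos hGpos hSpos, ?_⟩
  intro c
  have := hc c
  rw [div_eq_div_iff hSpos.ne' hne] at this
  field_simp
  linarith

lemma cnt_cons {q d : ℕ} (a : Fin q) (τ : Fin d → Fin q) (c : Fin q) :
    cnt (Fin.cons a τ : Fin (d + 1) → Fin q) c = (if a = c then 1 else 0) + cnt τ c := by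
  unfold cnt
  rw [Finset.card_filter, Finset.card_filter, Fin.sum_univ_succ]
  simp

lemma cnt_const {q d : ℕ} (a : Fin q) (c : Fin q) :
    cnt (fun _ => a : Fin d → Fin q) c = if a = c then d else 0 := by
  unfold cnt
  rw [Finset.card_filter]
  split_ifs <;> simp [*]

/-- if a nonnegative functional vanishes on the weights of a product measure, it vanishes on every
vertex in the support -/
lemma support_vanish {q d : ℕ} {β : ℝ} (p : Fin d → Fin q → ℝ)
    (hp : ∀ i, p i ∈ stdSimplex ℝ (Fin q)) (w : Fin q → ℝ)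
    (hw : ∀ τ : Fin d → Fin q, 0 ≤ ∑ c, w c * β ^ cnt τ c)
    (hz : ∑ c, w c * ∏ i, (1 - (1 - β) * p i c) = 0) (τ : Fin d → Fin q)
    (hτ : ∀ i, 0 < p i (τ i)) : ∑ c, w c * β ^ cnt τ c = 0 := by
  have h1 := functional_expand β (prodMeasure p) w
  simp only [weight_prod β p hp] at h1
  rw [hz] at h1
  have h2 : ∀ τ : Fin d → Fin q, 0 ≤ prodMeasure p τ * ∑ c, w c * β ^ cnt τ c := by
    intro τ
    apply mul_nonneg _ (hw τ)
    exact Finset.prod_nonneg (fun i _ => (hp i).1 _)
  have h3 := (Finset.sum_eq_zero_iff_of_nonneg (fun τ _ => h2 τ)).1 h1.symm τ (Finset.mem_univ _)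
  have h4 : 0 < prodMeasure p τ := Finset.prod_pos (fun i _ => hτ i)
  rcases mul_eq_zero.1 h3 with h | h
  · exact absurd h h4.ne'
  · exact h

/-! ### The case `0 < β < 1`, `q ≥ 4`, `d ≥ 2` -/

/-- the supporting functional -/
def wA (q e : ℕ) (β : ℝ) (c0 c3 : Fin q) (c : Fin q) : ℝ :=
  if c = c0 then 1 else if c = c3 then -(β ^ e * (q - 3 + 2 * β)) else β ^ e

/-- termwise lower bound -/
def gA (q e : ℕ) (β : ℝ) (c0 c3 : Fin q) (n : Fin q → ℕ) (c : Fin q) : ℝ :=
  β ^ e * (1 - (1 - β) * n c) + (if c = c0 then β ^ e * (1 - β) * e else 0)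
    + (if c = c3 then -(β ^ e * (q - 2 + 2 * β)) else 0)

lemma gA_sum {q e : ℕ} {β : ℝ} (c0 c3 : Fin q) (n : Fin q → ℕ) (hn : ∑ c, n c = e + 2) :
    ∑ c, gA q e β c0 c3 n c = 0 := by
  unfold gA
  rw [Finset.sum_add_distrib, Finset.sum_add_distrib, ← Finset.mul_sum, Finset.sum_sub_distrib,
    ← Finset.mul_sum]
  have : (∑ c, (n c : ℝ)) = e + 2 := by exact_mod_cast hn
  rw [this]
  simp
  ring

lemma gA_le {q e : ℕ} {β : ℝ} (h0 : 0 < β) (h1 : β < 1) (hq : 4 ≤ q) {c0 c3 : Fin q}
    (h03 : c0 ≠ c3) (n : Fin q → ℕ) (c : Fin q) :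
    gA q e β c0 c3 n c ≤ wA q e β c0 c3 c * β ^ n c := by
  have hq' : (4:ℝ) ≤ q := by exact_mod_cast hq
  have he : 0 < β ^ e := by positivity
  unfold gA wA
  by_cases hc0 : c = c0
  · subst hc0
    simp only [if_true, if_neg h03]
    have := bern h0 h1 e (n c)
    nlinarith
  · by_cases hc3 : c = c3
    · subst hc3
      simp only [if_neg hc0, if_true]
      have hle : β ^ n c ≤ 1 := pow_le_one₀ h0.le h1.le
      have hn : (0:ℝ) ≤ n c := Nat.cast_nonneg _
      have h5 : (q - 3 + 2 * β) * β ^ n c ≤ (q - 3 + 2 * β) + (1 - β) * n c := by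
        have : (q - 3 + 2 * β) * β ^ n c ≤ (q - 3 + 2 * β) * 1 :=
          mul_le_mul_of_nonneg_left hle (by linarith)
        nlinarith
      nlinarith [mul_le_mul_of_nonneg_left h5 he.le]
    · simp only [if_neg hc0, if_neg hc3]
      have := bern h0 h1 0 (n c)
      have h6 := mul_le_mul_of_nonneg_left this he.le
      simp at h6
      linarith

lemma wA_nonneg {q e : ℕ} {β : ℝ} (h0 : 0 < β) (h1 : β < 1) (hq : 4 ≤ q) {c0 c3 : Fin q}
    (h03 : c0 ≠ c3) (τ : Fin (e + 2) → Fin q) :
    0 ≤ ∑ c, wA q e β c0 c3 c * β ^ cnt τ c := by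
  rw [← gA_sum (β := β) c0 c3 (cnt τ) (cnt_sum τ)]
  exact Finset.sum_le_sum (fun c _ => gA_le h0 h1 hq h03 (cnt τ) c)

lemma wA_zero {q e : ℕ} {β : ℝ} (h0 : 0 < β) (h1 : β < 1) (hq : 4 ≤ q) {c0 c3 : Fin q}
    (h03 : c0 ≠ c3) (τ : Fin (e + 2) → Fin q)
    (hz : ∑ c, wA q e β c0 c3 c * β ^ cnt τ c = 0) :
    cnt τ c3 = 0 ∧ (cnt τ c0 = e ∨ cnt τ c0 = e + 1) ∧ ∀ c, c ≠ c0 → cnt τ c ≤ 1 := by
  have hq' : (4:ℝ) ≤ q := by exact_mod_cast hq
  have he : 0 < β ^ e := by positivity
  have hterm : ∀ c, gA q e β c0 c3 (cnt τ) c = wA q e β c0 c3 c * β ^ cnt τ c := by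
    have h2 : ∑ c, (wA q e β c0 c3 c * β ^ cnt τ c - gA q e β c0 c3 (cnt τ) c) = 0 := by
      rw [Finset.sum_sub_distrib, hz, gA_sum (β := β) c0 c3 (cnt τ) (cnt_sum τ), sub_zero]
    have h3 := (Finset.sum_eq_zero_iff_of_nonneg
      (fun c _ => sub_nonneg.2 (gA_le h0 h1 hq h03 (cnt τ) c))).1 h2
    intro c
    have := h3 c (Finset.mem_univ c)
    linarith
  have hc3 : cnt τ c3 = 0 := by
    by_contra hne
    have h1' : 1 ≤ cnt τ c3 := Nat.one_le_iff_ne_zero.2 hne
    have := hterm c3
    unfold gA wA at this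
    simp only [if_neg (Ne.symm h03), if_true] at this
    have hle : β ^ cnt τ c3 ≤ β ^ 1 := pow_le_pow_of_le_one h0.le h1.le h1'
    have hn : (0:ℝ) ≤ cnt τ c3 := Nat.cast_nonneg _
    have h5 : (q - 3 + 2 * β) * β ^ cnt τ c3 < (q - 3 + 2 * β) + (1 - β) * cnt τ c3 := by
      have : (q - 3 + 2 * β) * β ^ cnt τ c3 ≤ (q - 3 + 2 * β) * β ^ 1 :=
        mul_le_mul_of_nonneg_left hle (by linarith)
      nlinarith
    nlinarith [mul_lt_mul_of_pos_left h5 he]
  refine ⟨hc3, ?_, ?_⟩
  · by_contra hne
    push Not at hne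
    have := hterm c0
    unfold gA wA at this
    simp only [if_true, if_neg h03] at this
    have hb := bern_strict h0 h1 e (cnt τ c0) hne.1 hne.2
    nlinarith
  · intro c hc
    by_cases hcc : c = c3
    · rw [hcc, hc3]; exact Nat.zero_le _
    · by_contra hlt
      push Not at hlt
      have := hterm c
      unfold gA wA at this
      simp only [if_neg hc, if_neg hcc] at this
      have hb := bern_strict h0 h1 0 (cnt τ c) (by omega) (by omega)
      have h6 := mul_lt_mul_of_pos_left hb he
      simp at h6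
      linarith

/-- converse: at the special vertices the functional vanishes -/
lemma wA_vertex {q e : ℕ} {β : ℝ} {c0 c3 : Fin q}
    (h03 : c0 ≠ c3) (τ : Fin (e + 2) → Fin q)
    (hc3 : cnt τ c3 = 0) (hc0 : cnt τ c0 = e ∨ cnt τ c0 = e + 1)
    (hc : ∀ c, c ≠ c0 → cnt τ c ≤ 1) :
    ∑ c, wA q e β c0 c3 c * β ^ cnt τ c = 0 := by
  rw [← gA_sum (β := β) c0 c3 (cnt τ) (cnt_sum τ)]
  apply Finset.sum_congr rfl
  intro c _
  unfold gA wA
  by_cases h0 : c = c0
  · subst h0
    simp only [if_true, if_neg h03]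
    rcases hc0 with h | h
    · rw [h]; ring
    · rw [h]; push_cast; ring
  · by_cases h3 : c = c3
    · subst h3
      simp only [if_neg h0, if_true, hc3]
      push_cast
      ring
    · simp only [if_neg h0, if_neg h3]
      have := hc c h0
      interval_cases h : cnt τ c
      · simp
      · simp

lemma exists_pos {q d : ℕ} (p : Fin d → Fin q → ℝ) (hp : ∀ i, p i ∈ stdSimplex ℝ (Fin q))
    (i : Fin d) : ∃ c, 0 < p i c := by
  by_contra h
  push Not at h
  have h1 : ∑ c, p i c ≤ 0 := Finset.sum_nonpos (fun c _ => h c)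
  rw [(hp i).2] at h1
  linarith

theorem notConvex_pos {q e : ℕ} (hq : 4 ≤ q) {β : ℝ} (h0 : 0 < β) (h1 : β < 1) :
    ¬ Convex ℝ (bpImageProd (pottsMatrix q β) (e + 2)) := by
  intro hconv
  obtain ⟨c0, hc0⟩ : ∃ c : Fin q, c.val = 0 := ⟨⟨0, by omega⟩, rfl⟩
  obtain ⟨c1, hc1⟩ : ∃ c : Fin q, c.val = 1 := ⟨⟨1, by omega⟩, rfl⟩
  obtain ⟨c2, hc2⟩ : ∃ c : Fin q, c.val = 2 := ⟨⟨2, by omega⟩, rfl⟩
  obtain ⟨c3, hc3⟩ : ∃ c : Fin q, c.val = 3 := ⟨⟨3, by omega⟩, rfl⟩
  have h01 : c0 ≠ c1 := by intro h; rw [h, hc1] at hc0; omega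
  have h02 : c0 ≠ c2 := by intro h; rw [h, hc2] at hc0; omega
  have h03 : c0 ≠ c3 := by intro h; rw [h, hc3] at hc0; omega
  have h12 : c1 ≠ c2 := by intro h; rw [h, hc2] at hc1; omega
  have h13 : c1 ≠ c3 := by intro h; rw [h, hc3] at hc1; omega
  have h23 : c2 ≠ c3 := by intro h; rw [h, hc3] at hc2; omega
  have hq' : (4:ℝ) ≤ q := by exact_mod_cast hq
  have he : 0 < β ^ e := by positivity
  -- the three vertices
  let τ : Fin 3 → Fin (e + 2) → Fin q := ![Fin.cons c0 (Fin.cons c1 (fun _ => c0)),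
    Fin.cons c0 (Fin.cons c2 (fun _ => c0)), Fin.cons c1 (Fin.cons c2 (fun _ => c0))]
  have hpos : ∀ k, 0 < ∑ b, β ^ cnt (τ k) b := fun k =>
    Finset.sum_pos (fun b _ => by positivity) ⟨c0, Finset.mem_univ _⟩
  have ct0 : ∀ c, cnt (τ 0) c = (if c0 = c then 1 else 0) + ((if c1 = c then 1 else 0) +
      if c0 = c then e else 0) := by
    intro c
    show cnt (Fin.cons c0 (Fin.cons c1 (fun _ => c0))) c = _
    rw [cnt_cons, cnt_cons, cnt_const]
  have ct1 : ∀ c, cnt (τ 1) c = (if c0 = c then 1 else 0) + ((if c2 = c then 1 else 0) +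
      if c0 = c then e else 0) := by
    intro c
    show cnt (Fin.cons c0 (Fin.cons c2 (fun _ => c0))) c = _
    rw [cnt_cons, cnt_cons, cnt_const]
  have ct2 : ∀ c, cnt (τ 2) c = (if c1 = c then 1 else 0) + ((if c2 = c then 1 else 0) +
      if c0 = c then e else 0) := by
    intro c
    show cnt (Fin.cons c1 (Fin.cons c2 (fun _ => c0))) c = _
    rw [cnt_cons, cnt_cons, cnt_const]
  obtain ⟨p, hp, κ, hκ, hG⟩ := conic h0.le h1.le hconv τ hpos
  -- the functional vanishes on the three vertices
  have hv : ∀ k, ∑ c, wA q e β c0 c3 c * β ^ cnt (τ k) c = 0 := by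
    intro k
    fin_cases k
    · apply wA_vertex h03
      · show cnt (τ 0) c3 = 0
        rw [ct0]; simp [h03, h13]
      · show cnt (τ 0) c0 = e ∨ cnt (τ 0) c0 = e + 1
        rw [ct0]; simp [Ne.symm h01]; omega
      · intro c hc
        show cnt (τ 0) c ≤ 1
        rw [ct0]; simp [Ne.symm hc]; split_ifs <;> simp
    · apply wA_vertex h03
      · show cnt (τ 1) c3 = 0
        rw [ct1]; simp [h03, h23]
      · show cnt (τ 1) c0 = e ∨ cnt (τ 1) c0 = e + 1
        rw [ct1]; simp [Ne.symm h02]; omega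
      · intro c hc
        show cnt (τ 1) c ≤ 1
        rw [ct1]; simp [Ne.symm hc]; split_ifs <;> simp
    · apply wA_vertex h03
      · show cnt (τ 2) c3 = 0
        rw [ct2]; simp [h03, h13, h23]
      · show cnt (τ 2) c0 = e ∨ cnt (τ 2) c0 = e + 1
        rw [ct2]; simp [Ne.symm h01, Ne.symm h02]
      · intro c hc
        show cnt (τ 2) c ≤ 1
        rw [ct2]
        by_cases hh : c1 = c
        · have : ¬ c2 = c := fun h => h12 (hh.trans h.symm)
          simp [hh, this, Ne.symm hc]
        · simp [hh, Ne.symm hc]; split_ifs <;> simp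
  have hLG : ∑ c, wA q e β c0 c3 c * ∏ i, (1 - (1 - β) * p i c) = 0 := by
    simp_rw [hG]
    have : ∀ c, wA q e β c0 c3 c * (κ * ∑ k, β ^ cnt (τ k) c) =
        ∑ k, κ * (wA q e β c0 c3 c * β ^ cnt (τ k) c) := by
      intro c
      rw [← Finset.mul_sum, ← Finset.mul_sum]; ring
    simp_rw [this]
    rw [Finset.sum_comm]
    simp_rw [← Finset.mul_sum, hv]
    simp
  have hsupp : ∀ τ' : Fin (e + 2) → Fin q, (∀ i, 0 < p i (τ' i)) →
      cnt τ' c3 = 0 ∧ (cnt τ' c0 = e ∨ cnt τ' c0 = e + 1) ∧ ∀ c, c ≠ c0 → cnt τ' c ≤ 1 := by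
    intro τ' hτ'
    exact wA_zero h0 h1 hq h03 τ' (support_vanish p hp _ (wA_nonneg h0 h1 hq h03) hLG τ' hτ')
  have hpn : ∀ i c, 0 ≤ p i c := fun i c => (hp i).1 c
  choose a ha using exists_pos p hp
  -- no weight on `c3`
  have hp3 : ∀ i, p i c3 = 0 := by
    intro i
    by_contra hne
    have hi : 0 < p i c3 := lt_of_le_of_ne (hpn i c3) (Ne.symm hne)
    have := (hsupp (Function.update a i c3) (by
      intro j
      by_cases hj : j = i
      · subst hj; simpa using hi
      · simpa [hj] using ha j)).1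
    unfold cnt at this
    rw [Finset.card_eq_zero, Finset.filter_eq_empty_iff] at this
    exact this (Finset.mem_univ i) (by simp)
  have hκ3 : κ = 1 / 3 := by
    have h3 := hG c3
    simp only [hp3, mul_zero, sub_zero, Finset.prod_const_one] at h3
    have : ∑ k, β ^ cnt (τ k) c3 = 3 := by
      rw [Fin.sum_univ_three, ct0, ct1, ct2]
      simp [h03, h13, h23]
      norm_num
    rw [this] at h3
    linarith
  -- at most two indices have support outside `c0`
  classical
  let B : Finset (Fin (e + 2)) := {i | ∃ c, c ≠ c0 ∧ 0 < p i c}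
  have hB : ∀ i, ∃ c, 0 < p i c ∧ (i ∈ B → c ≠ c0) ∧ (i ∉ B → c = c0) := by
    intro i
    by_cases hi : i ∈ B
    · obtain ⟨c, hc, hpc⟩ := (Finset.mem_filter.1 hi).2
      exact ⟨c, hpc, fun _ => hc, fun h => absurd hi h⟩
    · refine ⟨a i, ha i, fun h => absurd h hi, fun _ => ?_⟩
      by_contra hne
      exact hi (Finset.mem_filter.2 ⟨Finset.mem_univ i, a i, hne, ha i⟩)
  choose σ hσ1 hσ2 hσ3 using hB
  have hBcard : B.card ≤ 2 := by
    have h5 := (hsupp σ hσ1).2.1
    have h6 : cnt σ c0 = (Bᶜ).card := by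
      unfold cnt
      congr 1
      ext i
      simp only [Finset.mem_filter, Finset.mem_univ, true_and, Finset.mem_compl]
      constructor
      · intro h hi
        exact hσ2 i hi h
      · intro h
        exact hσ3 i h
    rw [Finset.card_compl, Fintype.card_fin] at h6
    have h7 : B.card ≤ e + 2 := by simpa using Finset.card_le_univ B
    omega
  obtain ⟨t, hBt, ht⟩ := Finset.exists_superset_card_eq hBcard (by simp)
  obtain ⟨u, v, huv, rfl⟩ := Finset.card_eq_two.1 ht
  have hout : ∀ i, i ≠ u → i ≠ v → (∀ c, c ≠ c0 → p i c = 0) ∧ p i c0 = 1 := by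
    intro i hiu hiv
    have hz : ∀ c, c ≠ c0 → p i c = 0 := by
      intro c hc
      by_contra hne
      have hpos : 0 < p i c := lt_of_le_of_ne (hpn i c) (Ne.symm hne)
      have := hBt (Finset.mem_filter.2 ⟨Finset.mem_univ i, c, hc, hpos⟩)
      simp [hiu, hiv] at this
    refine ⟨hz, ?_⟩
    have h5 := (hp i).2
    rwa [Finset.sum_eq_single c0 (fun c _ hc => hz c hc) (fun h => absurd (Finset.mem_univ _) h)] at h5
  -- product formula
  have hprod : ∀ c, ∏ i, (1 - (1 - β) * p i c) =
      (1 - (1 - β) * p u c) * ((1 - (1 - β) * p v c) * if c = c0 then β ^ e else 1) := by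
    intro c
    have hvm : v ∈ (Finset.univ.erase u : Finset (Fin (e + 2))) := by simp [Ne.symm huv]
    rw [← Finset.mul_prod_erase _ _ (Finset.mem_univ u), ← Finset.mul_prod_erase _ _ hvm]
    congr 2
    have : ∀ i ∈ (Finset.univ.erase u).erase v, (1 - (1 - β) * p i c) = if c = c0 then β else 1 := by
      intro i hi
      simp only [Finset.mem_erase, Finset.mem_univ, and_true] at hi
      obtain ⟨hz, h1'⟩ := hout i hi.2 hi.1
      split_ifs with h
      · rw [h, h1']; ring
      · rw [hz c h]; ring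
    rw [Finset.prod_congr rfl this, Finset.prod_const, Finset.card_erase_of_mem hvm,
      Finset.card_erase_of_mem (Finset.mem_univ u), Finset.card_univ, Fintype.card_fin]
    split_ifs <;> simp
  -- disjoint supports
  have hdisj : ∀ c, p u c = 0 ∨ p v c = 0 := by
    intro c
    by_contra hne
    push Not at hne
    have hu : 0 < p u c := lt_of_le_of_ne (hpn u c) (Ne.symm hne.1)
    have hv' : 0 < p v c := lt_of_le_of_ne (hpn v c) (Ne.symm hne.2)
    have h5 := hsupp (Function.update (Function.update a u c) v c) (by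
      intro j
      by_cases hj : j = v
      · subst hj; simpa using hv'
      · by_cases hj' : j = u
        · subst hj'; simpa [hj] using hu
        · simpa [hj, hj'] using ha j)
    by_cases hc : c = c0
    · -- all entries are `c0`
      have h6 : cnt (Function.update (Function.update a u c) v c) c0 = e + 2 := by
        unfold cnt
        rw [Finset.filter_true_of_mem, Finset.card_univ, Fintype.card_fin]
        intro i _
        by_cases hj : i = v
        · subst hj; simpa using hc
        · by_cases hj' : i = u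
          · subst hj'; simpa [hj] using hc
          · simp only [ne_eq, hj, not_false_eq_true, Function.update_of_ne, hj']
            by_contra hne'
            have := (hout i hj' hj).1 (a i) hne'
            have := ha i
            linarith
      omega
    · have h6 : 2 ≤ cnt (Function.update (Function.update a u c) v c) c := by
        unfold cnt
        refine le_trans (Finset.card_pair huv).ge (Finset.card_le_card ?_)
        intro i hi
        simp only [Finset.mem_insert, Finset.mem_singleton] at hi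
        rcases hi with rfl | rfl
        · simp [huv]
        · simp
      have := h5.2.2 c hc
      omega
  have hsum : ∀ c, (c = c0 ∨ c = c1 ∨ c = c2) → p u c + p v c = 2 / 3 := by
    intro c hc
    have h5 := hG c
    rw [hprod c, Fin.sum_univ_three, ct0, ct1, ct2, hκ3] at h5
    have hb : 0 < 1 - β := by linarith
    have h6 : (1 - (1 - β) * p u c) * (1 - (1 - β) * p v c) = 1 - (1 - β) * (p u c + p v c) := by
      rcases hdisj c with h | h <;> rw [h] <;> ring
    have h7 : (1 - (1 - β) * p u c) * (1 - (1 - β) * p v c) = (1 + 2 * β) / 3 := by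
      rcases hc with rfl | rfl | rfl
      · simp [Ne.symm h01, Ne.symm h02] at h5
        have h8 : (1 - (1 - β) * p u c) * (1 - (1 - β) * p v c) * β ^ e =
            (1 + 2 * β) / 3 * β ^ e := by
          rw [mul_assoc, h5, pow_add]
          ring
        exact mul_right_cancel₀ he.ne' h8
      · simp [h01, Ne.symm h12, Ne.symm h01] at h5
        rw [h5]; ring
      · simp [h02, h12, Ne.symm h02] at h5
        rw [h5]; ring
    rw [h6] at h7
    have : (1 - β) * (p u c + p v c) = (1 - β) * (2 / 3) := by linarith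
    exact mul_left_cancel₀ hb.ne' this
  have hle : ∀ i, p i c0 + p i c1 + p i c2 ≤ 1 := by
    intro i
    rw [← (hp i).2]
    have : ∑ c ∈ ({c0, c1, c2} : Finset (Fin q)), p i c = p i c0 + p i c1 + p i c2 := by
      rw [Finset.sum_insert (by simp [h01, h02]), Finset.sum_insert (by simp [h12]),
        Finset.sum_singleton]
      ring
    rw [← this]
    exact Finset.sum_le_sum_of_subset_of_nonneg (Finset.subset_univ _) (fun c _ _ => hpn i c)
  have s0 := hsum c0 (Or.inl rfl)
  have s1 := hsum c1 (Or.inr (Or.inl rfl))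
  have s2 := hsum c2 (Or.inr (Or.inr rfl))
  have hu := hle u
  have hv' := hle v
  rcases hdisj c0 with h | h <;> rcases hdisj c1 with h' | h' <;> rcases hdisj c2 with h'' | h'' <;>
    rw [h] at s0 <;> rw [h'] at s1 <;> rw [h''] at s2 <;> linarith [hpn u c0, hpn u c1, hpn u c2,
      hpn v c0, hpn v c1, hpn v c2]

/-! ### The case `β = 0`, `2 ≤ d ≤ q - 2` -/

lemma zero_pow_ge (n : ℕ) : (1 : ℝ) - n ≤ (0 : ℝ) ^ n := by
  rcases n with _ | n
  · simp
  · simp

lemma zero_pow_eq (n : ℕ) (h : (1 : ℝ) - n = (0 : ℝ) ^ n) : n ≤ 1 := by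
  rcases n with _ | _ | n
  · simp
  · simp
  · exfalso
    simp at h
    have : (0:ℝ) ≤ n := Nat.cast_nonneg n
    linarith

lemma wB_expand {q d : ℕ} (s : Fin q) (n : Fin q → ℕ) (hn : ∑ c, n c = d) :
    ∑ c, (1 - if c = s then ((q : ℝ) - d) else 0) * (0 : ℝ) ^ n c =
      ∑ c, ((0 : ℝ) ^ n c - (1 - n c)) + ((q : ℝ) - d) * (1 - 0 ^ n s) := by
  have : (∑ c, (n c : ℝ)) = d := by exact_mod_cast hn
  rw [Finset.sum_sub_distrib, Finset.sum_sub_distrib, this]
  simp only [sub_mul, one_mul, ite_mul, zero_mul, Finset.sum_sub_distrib, Finset.sum_ite_eq',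
    Finset.mem_univ, if_true]
  simp
  ring

lemma wB_nonneg {q d : ℕ} (hqd : d < q) (s : Fin q) (τ : Fin d → Fin q) :
    0 ≤ ∑ c, (1 - if c = s then ((q : ℝ) - d) else 0) * (0 : ℝ) ^ cnt τ c := by
  rw [wB_expand s (cnt τ) (cnt_sum τ)]
  have hqd' : (d : ℝ) < q := by exact_mod_cast hqd
  apply add_nonneg
  · exact Finset.sum_nonneg (fun c _ => sub_nonneg.2 (zero_pow_ge _))
  · apply mul_nonneg (by linarith)
    have : (0:ℝ) ^ cnt τ s ≤ 1 := pow_le_one₀ le_rfl zero_le_one
    linarith

lemma wB_zero {q d : ℕ} (hqd : d < q) (s : Fin q) (τ : Fin d → Fin q)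
    (hz : ∑ c, (1 - if c = s then ((q : ℝ) - d) else 0) * (0 : ℝ) ^ cnt τ c = 0) :
    cnt τ s = 0 ∧ ∀ c, cnt τ c ≤ 1 := by
  rw [wB_expand s (cnt τ) (cnt_sum τ)] at hz
  have hqd' : (d : ℝ) < q := by exact_mod_cast hqd
  have h1 : 0 ≤ ∑ c, ((0 : ℝ) ^ cnt τ c - (1 - cnt τ c)) :=
    Finset.sum_nonneg (fun c _ => sub_nonneg.2 (zero_pow_ge _))
  have h2 : 0 ≤ ((q : ℝ) - d) * (1 - 0 ^ cnt τ s) := by
    apply mul_nonneg (by linarith)
    have : (0:ℝ) ^ cnt τ s ≤ 1 := pow_le_one₀ le_rfl zero_le_one
    linarith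
  constructor
  · by_contra hne
    have h3 : ((q : ℝ) - d) * (1 - 0 ^ cnt τ s) = 0 := by linarith
    rw [zero_pow hne] at h3
    simp at h3
    linarith
  · intro c
    have h3 : ∑ c, ((0 : ℝ) ^ cnt τ c - (1 - cnt τ c)) = 0 := by linarith
    have h4 := (Finset.sum_eq_zero_iff_of_nonneg
      (fun c _ => sub_nonneg.2 (zero_pow_ge (cnt τ c)))).1 h3 c (Finset.mem_univ c)
    apply zero_pow_eq
    linarith

lemma wB_vertex {q d : ℕ} (s : Fin q) (τ : Fin d → Fin q)
    (h0 : cnt τ s = 0) (h1 : ∀ c, cnt τ c ≤ 1) :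
    ∑ c, (1 - if c = s then ((q : ℝ) - d) else 0) * (0 : ℝ) ^ cnt τ c = 0 := by
  rw [wB_expand s (cnt τ) (cnt_sum τ), h0]
  simp only [pow_zero, sub_self, mul_zero, add_zero]
  apply Finset.sum_eq_zero
  intro c _
  have := h1 c
  interval_cases h : cnt τ c <;> simp

theorem notConvex_zero {q e : ℕ} (hq : e + 4 ≤ q) :
    ¬ Convex ℝ (bpImageProd (pottsMatrix q 0) (e + 2)) := by
  intro hconv
  obtain ⟨c0, hc0⟩ : ∃ c : Fin q, c.val = 0 := ⟨⟨0, by omega⟩, rfl⟩
  obtain ⟨c1, hc1⟩ : ∃ c : Fin q, c.val = 1 := ⟨⟨1, by omega⟩, rfl⟩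
  obtain ⟨c2, hc2⟩ : ∃ c : Fin q, c.val = 2 := ⟨⟨2, by omega⟩, rfl⟩
  obtain ⟨s, hs⟩ : ∃ c : Fin q, c.val = e + 3 := ⟨⟨e + 3, by omega⟩, rfl⟩
  have hqd : e + 2 < q := by omega
  -- the three vertices
  let ρ : Fin e → Fin q := fun i => ⟨i.val + 3, by omega⟩
  have hρ : ∀ c : Fin q, cnt ρ c = if 3 ≤ c.val ∧ c.val < e + 3 then 1 else 0 := by
    intro c
    unfold cnt
    split_ifs with h
    · rw [Finset.card_eq_one]
      refine ⟨⟨c.val - 3, by omega⟩, ?_⟩
      ext i
      simp only [ρ, Finset.mem_filter, Finset.mem_univ, true_and, Finset.mem_singleton, Fin.ext_iff]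
      omega
    · rw [Finset.card_eq_zero, Finset.filter_eq_empty_iff]
      intro i _
      simp only [ρ, Fin.ext_iff]
      omega
  let τ : Fin 3 → Fin (e + 2) → Fin q := ![Fin.cons c0 (Fin.cons c1 ρ),
    Fin.cons c0 (Fin.cons c2 ρ), Fin.cons c1 (Fin.cons c2 ρ)]
  have ct0 : ∀ c, cnt (τ 0) c = (if c0 = c then 1 else 0) + ((if c1 = c then 1 else 0) +
      if 3 ≤ c.val ∧ c.val < e + 3 then 1 else 0) := by
    intro c
    show cnt (Fin.cons c0 (Fin.cons c1 ρ)) c = _
    rw [cnt_cons, cnt_cons, hρ]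
  have ct1 : ∀ c, cnt (τ 1) c = (if c0 = c then 1 else 0) + ((if c2 = c then 1 else 0) +
      if 3 ≤ c.val ∧ c.val < e + 3 then 1 else 0) := by
    intro c
    show cnt (Fin.cons c0 (Fin.cons c2 ρ)) c = _
    rw [cnt_cons, cnt_cons, hρ]
  have ct2 : ∀ c, cnt (τ 2) c = (if c1 = c then 1 else 0) + ((if c2 = c then 1 else 0) +
      if 3 ≤ c.val ∧ c.val < e + 3 then 1 else 0) := by
    intro c
    show cnt (Fin.cons c1 (Fin.cons c2 ρ)) c = _
    rw [cnt_cons, cnt_cons, hρ]
  have hs0 : ∀ k, cnt (τ k) s = 0 := by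
    intro k
    fin_cases k
    · show cnt (τ 0) s = 0
      rw [ct0]
      simp only [Fin.ext_iff, hc0, hc1, hs]
      simp
    · show cnt (τ 1) s = 0
      rw [ct1]
      simp only [Fin.ext_iff, hc0, hc2, hs]
      simp
    · show cnt (τ 2) s = 0
      rw [ct2]
      simp only [Fin.ext_iff, hc1, hc2, hs]
      simp
  have hs1 : ∀ k c, cnt (τ k) c ≤ 1 := by
    intro k c
    fin_cases k
    · show cnt (τ 0) c ≤ 1
      rw [ct0]
      simp only [Fin.ext_iff, hc0, hc1]
      split_ifs <;> omega
    · show cnt (τ 1) c ≤ 1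
      rw [ct1]
      simp only [Fin.ext_iff, hc0, hc2]
      split_ifs <;> omega
    · show cnt (τ 2) c ≤ 1
      rw [ct2]
      simp only [Fin.ext_iff, hc1, hc2]
      split_ifs <;> omega
  have hpos : ∀ k, 0 < ∑ b, (0:ℝ) ^ cnt (τ k) b := by
    intro k
    refine Finset.sum_pos' (fun b _ => pow_nonneg le_rfl _) ⟨s, Finset.mem_univ _, ?_⟩
    rw [hs0 k]; simp
  obtain ⟨p, hp, κ, hκ, hG⟩ := conic le_rfl zero_le_one hconv τ hpos
  have hLG : ∑ c, (1 - if c = s then ((q : ℝ) - (e + 2 : ℕ)) else 0) * ∏ i, (1 - (1 - 0) * p i c) = 0 := by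
    simp_rw [hG]
    have : ∀ c, (1 - if c = s then ((q : ℝ) - (e + 2 : ℕ)) else 0) * (κ * ∑ k, (0:ℝ) ^ cnt (τ k) c) =
        ∑ k, κ * ((1 - if c = s then ((q : ℝ) - (e + 2 : ℕ)) else 0) * (0:ℝ) ^ cnt (τ k) c) := by
      intro c
      rw [← Finset.mul_sum, ← Finset.mul_sum]; ring
    simp_rw [this]
    rw [Finset.sum_comm]
    simp_rw [← Finset.mul_sum, fun k => wB_vertex s (τ k) (hs0 k) (hs1 k)]
    simp
  have hsupp : ∀ τ' : Fin (e + 2) → Fin q, (∀ i, 0 < p i (τ' i)) →
      cnt τ' s = 0 ∧ ∀ c, cnt τ' c ≤ 1 := by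
    intro τ' hτ'
    exact wB_zero hqd s τ' (support_vanish p hp _ (wB_nonneg hqd s) hLG τ' hτ')
  have hpn : ∀ i c, 0 ≤ p i c := fun i c => (hp i).1 c
  choose a ha using exists_pos p hp
  -- no weight on `s`
  have hp3 : ∀ i, p i s = 0 := by
    intro i
    by_contra hne
    have hi : 0 < p i s := lt_of_le_of_ne (hpn i s) (Ne.symm hne)
    have := (hsupp (Function.update a i s) (by
      intro j
      by_cases hj : j = i
      · subst hj; simpa using hi
      · simpa [hj] using ha j)).1
    unfold cnt at this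
    rw [Finset.card_eq_zero, Finset.filter_eq_empty_iff] at this
    exact this (Finset.mem_univ i) (by simp)
  have hκ3 : κ = 1 / 3 := by
    have h3 := hG s
    simp only [hp3, mul_zero, sub_zero, Finset.prod_const_one] at h3
    have : ∑ k, (0:ℝ) ^ cnt (τ k) s = 3 := by
      rw [Fin.sum_univ_three, hs0, hs0, hs0]
      norm_num
    rw [this] at h3
    linarith
  -- disjoint supports
  have hdisj : ∀ c u v, u ≠ v → p u c = 0 ∨ p v c = 0 := by
    intro c u v huv
    by_contra hne
    push Not at hne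
    have hu : 0 < p u c := lt_of_le_of_ne (hpn u c) (Ne.symm hne.1)
    have hv' : 0 < p v c := lt_of_le_of_ne (hpn v c) (Ne.symm hne.2)
    have h5 := hsupp (Function.update (Function.update a u c) v c) (by
      intro j
      by_cases hj : j = v
      · subst hj; simpa using hv'
      · by_cases hj' : j = u
        · subst hj'; simpa [hj] using hu
        · simpa [hj, hj'] using ha j)
    have h6 : 2 ≤ cnt (Function.update (Function.update a u c) v c) c := by
      unfold cnt
      refine le_trans (Finset.card_pair huv).ge (Finset.card_le_card ?_)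
      intro i hi
      simp only [Finset.mem_insert, Finset.mem_singleton] at hi
      rcases hi with rfl | rfl
      · simp [huv]
      · simp
    have := h5.2 c
    omega
  -- every colour below `e + 3` is heavily used by some index
  have hheavy : ∀ c : Fin q, c.val < e + 3 → ∃ i, 2 / 3 ≤ p i c := by
    intro c hc
    have h5 := hG c
    rw [Fin.sum_univ_three, hκ3, ct0, ct1, ct2] at h5
    have h6 : ∏ i, (1 - (1 - 0) * p i c) ≤ 1 / 3 := by
      rw [h5]
      simp only [Fin.ext_iff, hc0, hc1, hc2]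
      rcases Nat.lt_or_ge c.val 3 with h | h
      · interval_cases hcv : c.val <;> simp
      · have e0 : ¬ (0 = c.val) := by omega
        have e1 : ¬ (1 = c.val) := by omega
        have e2 : ¬ (2 = c.val) := by omega
        simp [e0, e1, e2, h, hc]
    by_contra hno
    push Not at hno
    -- at most one index has `p i c ≠ 0`
    by_cases hex : ∃ j, p j c ≠ 0
    · obtain ⟨j, hj⟩ := hex
      have h7 : ∏ i, (1 - (1 - 0) * p i c) = 1 - p j c := by
        rw [Finset.prod_eq_single j]
        · ring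
        · intro i _ hij
          rcases hdisj c i j hij with h | h
          · rw [h]; ring
          · exact absurd h hj
        · intro h; exact absurd (Finset.mem_univ _) h
      rw [h7] at h6
      have := hno j
      linarith
    · push Not at hex
      have h7 : ∏ i, (1 - (1 - 0) * p i c) = 1 := by
        apply Finset.prod_eq_one
        intro i _
        rw [hex i]; ring
      rw [h7] at h6
      norm_num at h6
  -- pigeonhole
  choose! f hf using hheavy
  let g : Fin (e + 3) → Fin (e + 2) := fun j => f ⟨j.val, by omega⟩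
  have hg : Function.Injective g := by
    intro j k hjk
    by_contra hne
    have h5 := hf ⟨j.val, by omega⟩ (by simp)
    have h6 := hf ⟨k.val, by omega⟩ (by simp)
    have h7 : f ⟨j.val, by omega⟩ = f ⟨k.val, by omega⟩ := hjk
    rw [← h7] at h6
    set i := f ⟨j.val, by omega⟩
    have hne' : (⟨j.val, by omega⟩ : Fin q) ≠ ⟨k.val, by omega⟩ := by
      intro h
      apply hne
      ext
      simpa [Fin.ext_iff] using h
    have h8 : p i ⟨j.val, by omega⟩ + p i ⟨k.val, by omega⟩ ≤ 1 := by
      rw [← (hp i).2, ← Finset.sum_pair hne']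
      exact Finset.sum_le_sum_of_subset_of_nonneg (Finset.subset_univ _) (fun c _ _ => hpn i c)
    linarith
  have := Fintype.card_le_of_injective g hg
  simp at this

/-! ### Convex cases -/

lemma mem_iff {q d : ℕ} {β : ℝ} {x : Fin q → ℝ} :
    x ∈ bpImageProd (pottsMatrix q β) d ↔ ∃ p : Fin d → Fin q → ℝ,
      (∀ i, p i ∈ stdSimplex ℝ (Fin q)) ∧
      ∀ c, x c = (∏ i, (1 - (1 - β) * p i c)) / ∑ b, ∏ i, (1 - (1 - β) * p i b) := by
  constructor
  · rintro ⟨p, hp, rfl⟩
    refine ⟨p, hp, fun c => ?_⟩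
    simp only [bpMap, weight_prod β p hp]
  · rintro ⟨p, hp, h⟩
    refine ⟨p, hp, ?_⟩
    funext c
    simp only [bpMap, weight_prod β p hp]
    exact h c

theorem convex_one {q d : ℕ} : Convex ℝ (bpImageProd (pottsMatrix q 1) d) := by
  apply Set.Subsingleton.convex
  intro x hx y hy
  obtain ⟨p, hp, h⟩ := mem_iff.1 hx
  obtain ⟨p', hp', h'⟩ := mem_iff.1 hy
  funext c
  rw [h c, h' c]
  simp

theorem convex_single {q : ℕ} {β : ℝ} (h : (q : ℝ) - (1 - β) ≠ 0) :
    Convex ℝ (bpImageProd (pottsMatrix q β) 1) := by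
  have hsum : ∀ p : Fin 1 → Fin q → ℝ, (∀ i, p i ∈ stdSimplex ℝ (Fin q)) →
      ∑ b, ∏ i, (1 - (1 - β) * p i b) = q - (1 - β) := by
    intro p hp
    simp only [Fin.prod_univ_one, Finset.sum_sub_distrib, ← Finset.mul_sum, (hp 0).2]
    simp
  intro x hx y hy a b ha hb hab
  obtain ⟨p, hp, hx'⟩ := mem_iff.1 hx
  obtain ⟨p', hp', hy'⟩ := mem_iff.1 hy
  rw [mem_iff]
  have hmem : ∀ i, (fun i => a • p i + b • p' i : Fin 1 → Fin q → ℝ) i ∈ stdSimplex ℝ (Fin q) :=
    fun i => convex_stdSimplex ℝ (Fin q) (hp i) (hp' i) ha hb hab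
  refine ⟨fun i => a • p i + b • p' i, hmem, fun c => ?_⟩
  rw [hsum _ hmem]
  simp only [Pi.add_apply, Pi.smul_apply, smul_eq_mul]
  rw [hx' c, hy' c, hsum p hp, hsum p' hp']
  simp only [Fin.prod_univ_one]
  field_simp
  have : a = 1 - b := by linarith
  subst this
  ring

/-- `β = 0`, `q = d + 1`: the image is the whole simplex. -/
lemma image_zero {d : ℕ} : bpImageProd (pottsMatrix (d + 1) 0) d = stdSimplex ℝ (Fin (d + 1)) := by
  ext x
  constructor
  · intro hx
    obtain ⟨p, hp, h⟩ := mem_iff.1 hx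
    have hnn : ∀ c, 0 ≤ ∏ i, (1 - (1 - (0:ℝ)) * p i c) :=
      fun c => weight_nonneg le_rfl zero_le_one p hp c
    have hpos : 0 < ∑ b, ∏ i, (1 - (1 - (0:ℝ)) * p i b) := by
      have hle : ∀ (s : Finset (Fin d)) (c : Fin (d+1)), 1 - ∑ i ∈ s, p i c ≤ ∏ i ∈ s, (1 - (1 - (0:ℝ)) * p i c) := by
        intro s c
        induction s using Finset.induction_on with
        | empty => simp
        | insert j s hj ih =>
          rw [Finset.sum_insert hj, Finset.prod_insert hj]
          have h1 : 0 ≤ p j c := (hp j).1 c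
          have h2 : p j c ≤ 1 := by
            calc p j c ≤ ∑ b, p j b := Finset.single_le_sum (fun b _ => (hp j).1 b) (Finset.mem_univ c)
              _ = 1 := (hp j).2
          have h3 : ∏ i ∈ s, (1 - (1 - (0:ℝ)) * p i c) ≤ 1 := by
            apply Finset.prod_le_one
            · intro i _
              have h2 : p i c ≤ 1 := by
                calc p i c ≤ ∑ b, p i b := Finset.single_le_sum (fun b _ => (hp i).1 b) (Finset.mem_univ c)
                  _ = 1 := (hp i).2
              linarith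
            · intro i _
              have := (hp i).1 c
              linarith
          nlinarith
      calc (0:ℝ) < 1 := one_pos
        _ = ∑ c : Fin (d+1), (1 - ∑ i, p i c) := by
          rw [Finset.sum_sub_distrib, Finset.sum_comm]
          simp only [(hp _).2]
          simp
        _ ≤ _ := Finset.sum_le_sum (fun c _ => hle Finset.univ c)
    constructor
    · intro c
      rw [h c]
      exact div_nonneg (hnn c) hpos.le
    · simp_rw [h]
      rw [← Finset.sum_div]
      exact div_self hpos.ne'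
  · intro hx
    rw [mem_iff]
    -- a colour with positive weight
    obtain ⟨c0, hc0⟩ : ∃ c, 0 < x c := by
      by_contra hno
      push Not at hno
      have h1 : ∑ c, x c ≤ 0 := Finset.sum_nonpos (fun c _ => hno c)
      rw [hx.2] at h1
      linarith
    set r : Fin d → ℝ := fun i => x (c0.succAbove i) / x c0 with hr
    have hrnn : ∀ i, 0 ≤ r i := fun i => div_nonneg (hx.1 _) hc0.le
    -- the scale
    obtain ⟨R, hR1, hRle, hRor⟩ : ∃ R : ℝ, 1 ≤ R ∧ (∀ i, r i ≤ R) ∧ (R = 1 ∨ ∃ i, r i = R) := by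
      by_cases hall : ∀ i, r i ≤ 1
      · exact ⟨1, le_rfl, hall, Or.inl rfl⟩
      · push Not at hall
        obtain ⟨i0, hi0⟩ := hall
        obtain ⟨j, _, hj⟩ := Finset.exists_max_image (Finset.univ : Finset (Fin d)) r ⟨i0, Finset.mem_univ _⟩
        exact ⟨r j, by linarith [hj i0 (Finset.mem_univ _)], fun i => hj i (Finset.mem_univ _),
          Or.inr ⟨j, rfl⟩⟩
    have hRpos : 0 < R := by linarith
    -- intermediate value theorem
    have hcont : ContinuousOn (fun s : ℝ => s - ∏ i, (1 - r i * s)) (Set.Icc 0 (1 / R)) := by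
      apply Continuous.continuousOn
      fun_prop
    have hivt := intermediate_value_Icc (by positivity : (0:ℝ) ≤ 1 / R) hcont
    have hfac : ∀ i, 0 ≤ 1 - r i * (1 / R) ∧ 1 - r i * (1 / R) ≤ 1 := by
      intro i
      constructor
      · have : r i * (1 / R) ≤ 1 := by
          rw [mul_one_div, div_le_one hRpos]; exact hRle i
        linarith
      · have : 0 ≤ r i * (1 / R) := mul_nonneg (hrnn i) (by positivity)
        linarith
    have hend : 0 ≤ 1 / R - ∏ i, (1 - r i * (1 / R)) := by
      rcases hRor with h | ⟨j, hj⟩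
      · have : ∏ i, (1 - r i * (1 / R)) ≤ 1 :=
          Finset.prod_le_one (fun i _ => (hfac i).1) (fun i _ => (hfac i).2)
        rw [h] at this ⊢
        norm_num at this ⊢
        exact this
      · have : ∏ i, (1 - r i * (1 / R)) = 0 := by
          apply Finset.prod_eq_zero (Finset.mem_univ j)
          rw [hj]; field_simp; ring
        rw [this, sub_zero]
        positivity
    have hstart : (0:ℝ) - ∏ i, (1 - r i * 0) ≤ 0 := by simp
    obtain ⟨s, ⟨hs0, hs1⟩, hs⟩ := hivt ⟨hstart, hend⟩
    have hs' : s = ∏ i, (1 - r i * s) := by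
      have : s - ∏ i, (1 - r i * s) = 0 := hs
      linarith
    have hspos : 0 < s := by
      rcases hs0.lt_or_eq with h | h
      · exact h
      · rw [← h] at hs'
        simp at hs'
    have hrs : ∀ i, 0 ≤ r i * s ∧ r i * s ≤ 1 := by
      intro i
      refine ⟨mul_nonneg (hrnn i) hs0, ?_⟩
      calc r i * s ≤ R * (1 / R) := mul_le_mul (hRle i) hs1 hs0 hRpos.le
        _ = 1 := by field_simp
    -- the product measure
    let p : Fin d → Fin (d + 1) → ℝ := fun i c =>
      if c = c0 then r i * s else if c = c0.succAbove i then 1 - r i * s else 0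
    have hp : ∀ i, p i ∈ stdSimplex ℝ (Fin (d + 1)) := by
      intro i
      constructor
      · intro c
        simp only [p]
        split_ifs
        · exact (hrs i).1
        · linarith [(hrs i).2]
        · exact le_rfl
      · rw [Fin.sum_univ_succAbove _ c0]
        simp only [p, if_true]
        have : ∀ j, (if c0.succAbove j = c0 then r i * s else
            if c0.succAbove j = c0.succAbove i then 1 - r i * s else 0) =
            if j = i then 1 - r i * s else 0 := by
          intro j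
          rw [if_neg (Fin.succAbove_ne c0 j)]
          by_cases h : j = i
          · simp [h]
          · rw [if_neg h, if_neg]
            intro h'
            exact h (Fin.succAbove_right_injective h')
        rw [Finset.sum_congr rfl (fun j _ => this j)]
        simp
    have hG0 : ∏ i, (1 - (1 - (0:ℝ)) * p i c0) = s := by
      have h5 : ∏ i, (1 - (1 - (0:ℝ)) * p i c0) = ∏ i, (1 - r i * s) := by
        apply Finset.prod_congr rfl
        intro i _
        simp only [p, if_true]
        ring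
      rw [h5]
      exact hs'.symm
    have hG : ∀ j, ∏ i, (1 - (1 - (0:ℝ)) * p i (c0.succAbove j)) = r j * s := by
      intro j
      rw [Finset.prod_eq_single j]
      · simp only [p, if_neg (Fin.succAbove_ne c0 j), if_true]
        ring
      · intro i _ hij
        have h1 : c0.succAbove j ≠ c0.succAbove i := by
          intro h'
          exact hij (Fin.succAbove_right_injective h').symm
        simp only [p, if_neg (Fin.succAbove_ne c0 j), if_neg h1]
        ring
      · intro h; exact absurd (Finset.mem_univ _) h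
    have hGx : ∀ c, ∏ i, (1 - (1 - (0:ℝ)) * p i c) = s / x c0 * x c := by
      intro c
      rcases Fin.eq_self_or_eq_succAbove c0 c with h | ⟨j, h⟩
      · rw [h, hG0]; field_simp
      · rw [h, hG j, hr]; field_simp
    refine ⟨p, hp, fun c => ?_⟩
    simp_rw [hGx]
    rw [← Finset.mul_sum, hx.2]
    field_simp

theorem convex_zero {d : ℕ} : Convex ℝ (bpImageProd (pottsMatrix (d + 1) 0) d) := by
  rw [image_zero]
  exact convex_stdSimplex ℝ _

/-! ### The case `q = 3`, `0 < β < 1` -/

lemma sum3 {i j k : Fin 3} (hij : i ≠ j) (hik : i ≠ k) (hjk : j ≠ k) {M : Type*} [AddCommMonoid M]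
    (f : Fin 3 → M) : ∑ c, f c = f i + f j + f k := by
  have h : (Finset.univ : Finset (Fin 3)) = {i, j, k} := by
    revert i j k; decide
  rw [h, Finset.sum_insert (by simp [hij, hik]), Finset.sum_insert (by simp [hjk]),
    Finset.sum_singleton, add_assoc]

/-- the facet inequalities -/
def Cond (β : ℝ) (D : ℕ) (z : Fin 3 → ℝ) : Prop :=
  ∀ i j k : Fin 3, i ≠ j → i ≠ k → j ≠ k → ∀ a a' : ℕ, a + a' = D →
    (1 + β) * β ^ D * z k ≤ β ^ a * z i + β ^ a' * z j

/-- representability as product weights, up to scaling -/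
def Rep (β : ℝ) (n : ℕ) (z : Fin 3 → ℝ) : Prop :=
  ∃ p : Fin n → Fin 3 → ℝ, (∀ i, p i ∈ stdSimplex ℝ (Fin 3)) ∧ ∃ κ : ℝ, 0 < κ ∧
    ∀ c, z c = κ * ∏ i, (1 - (1 - β) * p i c)

lemma cond_prod {β : ℝ} (h0 : 0 < β) (h1 : β < 1) {D : ℕ} (p : Fin (D + 1) → Fin 3 → ℝ)
    (hp : ∀ i, p i ∈ stdSimplex ℝ (Fin 3)) :
    Cond β D (fun c => ∏ i, (1 - (1 - β) * p i c)) := by
  intro i j k hij hik hjk a a' haa
  have key := functional_expand β (prodMeasure p)
    (fun c => if c = i then β ^ a else if c = j then β ^ a' else -((1 + β) * β ^ D))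
  simp only [weight_prod β p hp] at key
  rw [sum3 hij hik hjk] at key
  simp only [if_true, if_neg (Ne.symm hij), if_neg (Ne.symm hik), if_neg (Ne.symm hjk)] at key
  have hnn : 0 ≤ ∑ τ : Fin (D + 1) → Fin 3, prodMeasure p τ *
      ∑ c, (if c = i then β ^ a else if c = j then β ^ a' else -((1 + β) * β ^ D)) * β ^ cnt τ c := by
    apply Finset.sum_nonneg
    intro τ _
    apply mul_nonneg
    · exact Finset.prod_nonneg (fun i _ => (hp i).1 _)
    · rw [sum3 hij hik hjk]
      simp only [if_true, if_neg (Ne.symm hij), if_neg (Ne.symm hik), if_neg (Ne.symm hjk)]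
      have hs := cnt_sum τ
      rw [sum3 hij hik hjk] at hs
      have hs' : (cnt τ i : ℝ) + cnt τ j + cnt τ k = D + 1 := by exact_mod_cast hs
      have haa' : (a : ℝ) + a' = D := by exact_mod_cast haa
      have hD : β ^ D = β ^ a * β ^ a' := by rw [← haa, pow_add]
      have hD0 : 0 < β ^ D := by positivity
      have b1 := mul_le_mul_of_nonneg_left (bern h0 h1 a' (cnt τ i)) (by positivity : 0 ≤ β ^ a)
      have b2 := mul_le_mul_of_nonneg_left (bern h0 h1 a (cnt τ j)) (by positivity : 0 ≤ β ^ a')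
      have b3 : β ^ cnt τ k ≤ 1 := pow_le_one₀ h0.le h1.le
      have b4 : (1 + β) * β ^ cnt τ k ≤ (1 + β) + (1 - β) * cnt τ k := by
        have : (0:ℝ) ≤ cnt τ k := Nat.cast_nonneg _
        nlinarith
      have b5 := mul_le_mul_of_nonneg_left b4 hD0.le
      have e1 : β ^ a * (β ^ a' * (1 - (1 - β) * ((cnt τ i : ℝ) - a'))) +
          β ^ a' * (β ^ a * (1 - (1 - β) * ((cnt τ j : ℝ) - a))) =
          β ^ D * ((1 + β) + (1 - β) * cnt τ k) := by
        rw [hD]
        have : (cnt τ i : ℝ) = D + 1 - cnt τ j - cnt τ k := by linarith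
        rw [this, ← haa']
        ring
      nlinarith
  rw [← key] at hnn
  show (1 + β) * β ^ D * (∏ i, (1 - (1 - β) * p i k)) ≤ _
  linarith

lemma rep_succ {β : ℝ} {n : ℕ} {z z' y : Fin 3 → ℝ} (h : Rep β n z')
    (hy : y ∈ stdSimplex ℝ (Fin 3)) (hz : ∀ c, z c = z' c * (1 - (1 - β) * y c)) :
    Rep β (n + 1) z := by
  obtain ⟨p, hp, κ, hκ, hz'⟩ := h
  refine ⟨Fin.cons y p, ?_, κ, hκ, ?_⟩
  · intro i
    refine Fin.cases ?_ ?_ i
    · simpa using hy
    · intro j; simpa using hp j
  · intro c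
    rw [Fin.prod_univ_succ]
    simp only [Fin.cons_zero, Fin.cons_succ]
    rw [hz c, hz' c]
    ring

lemma rep_one {β : ℝ} (h0 : 0 < β) (h1 : β < 1) {z : Fin 3 → ℝ} (hpos : ∀ c, 0 < z c)
    (hc : Cond β 0 z) : Rep β 1 z := by
  have hb : 0 < 1 - β := by linarith
  have h2b : 0 < 2 + β := by linarith
  set S : ℝ := (∑ c, z c) / (2 + β) with hS
  have hSum : 0 < ∑ c, z c := Finset.sum_pos (fun c _ => hpos c) Finset.univ_nonempty
  have hSpos : 0 < S := div_pos hSum h2b
  have hSe : (∑ c, z c) = (2 + β) * S := by rw [hS]; field_simp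
  refine ⟨fun _ c => (S - z c) / ((1 - β) * S), ?_, S, hSpos, ?_⟩
  · intro _
    constructor
    · intro c
      apply div_nonneg _ (by positivity)
      have : (2 + β) * z c ≤ ∑ c, z c := by
        obtain ⟨i, j, hij, hic, hjc⟩ : ∃ i j : Fin 3, i ≠ j ∧ i ≠ c ∧ j ≠ c := by
          clear * -
          revert c; decide
        have h5 := hc i j c hij hic hjc 0 0 rfl
        rw [sum3 hij hic hjc]
        simp at h5
        linarith
      rw [hSe] at this
      have := le_of_mul_le_mul_left this h2b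
      linarith
    · rw [← Finset.sum_div, Finset.sum_sub_distrib, hSe]
      simp
      field_simp
      ring
  · intro c
    rw [Fin.prod_univ_one]
    field_simp
    ring

lemma single_factor {β : ℝ} (k c : Fin 3) :
    1 - (1 - β) * (Pi.single k (1:ℝ) : Fin 3 → ℝ) c = if c = k then β else 1 := by
  by_cases h : c = k
  · simp [h]
  · simp [h]

/-- dividing a coordinate by `β` and representing the quotient is enough -/
lemma rep_of_div {β : ℝ} (h0 : 0 < β) {n : ℕ} {z : Fin 3 → ℝ} (k : Fin 3)
    (h : Rep β n (fun c => if c = k then z c / β else z c)) : Rep β (n + 1) z := by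
  apply rep_succ h (single_mem_stdSimplex ℝ k)
  intro c
  rw [single_factor]
  split_ifs
  · field_simp
  · ring

lemma fin3_others (k : Fin 3) : ∃ i j : Fin 3, i ≠ j ∧ i ≠ k ∧ j ≠ k := by
  revert k; decide

lemma fin3_cases {i j k : Fin 3} (hij : i ≠ j) (hik : i ≠ k) (hjk : j ≠ k) (c : Fin 3) :
    c = i ∨ c = j ∨ c = k := by
  revert i j k c; decide

lemma exists_argmin (z : Fin 3 → ℝ) : ∃ i j k : Fin 3, i ≠ j ∧ i ≠ k ∧ j ≠ k ∧ z k ≤ z i ∧ z k ≤ z j := by
  obtain ⟨k, _, hk⟩ := Finset.exists_min_image (Finset.univ : Finset (Fin 3)) z Finset.univ_nonempty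
  obtain ⟨i, j, hij, hic, hjc⟩ := fin3_others k
  exact ⟨i, j, k, hij, hic, hjc, hk i (Finset.mem_univ _), hk j (Finset.mem_univ _)⟩

/-- The facet inequalities at level `0`, from three inequalities. -/
lemma cond_zero_of {β : ℝ} {z : Fin 3 → ℝ} {i j k : Fin 3} (hij : i ≠ j) (hik : i ≠ k) (hjk : j ≠ k)
    (hk : (1 + β) * z k ≤ z i + z j) (hj : (1 + β) * z j ≤ z i + z k)
    (hi : (1 + β) * z i ≤ z j + z k) : Cond β 0 z := by
  intro i' j' k' h1 h2 h3 a a' haa
  obtain ⟨rfl, rfl⟩ : a = 0 ∧ a' = 0 := by omega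
  have hk' : k' = i ∨ k' = j ∨ k' = k := fin3_cases hij hik hjk k'
  simp only [pow_zero, mul_one, one_mul]
  have hs : z i' + z j' + z k' = z i + z j + z k := by
    rw [← sum3 h1 h2 h3, ← sum3 hij hik hjk]
  rcases hk' with rfl | rfl | rfl <;> linarith

lemma rep_two {β : ℝ} (h0 : 0 < β) (h1 : β < 1) {z : Fin 3 → ℝ} (hpos : ∀ c, 0 < z c)
    (hc : Cond β 1 z) : Rep β 2 z := by
  have hb : 0 < 1 - β := by linarith
  obtain ⟨i, j, k, hij, hik, hjk, hki, hkj⟩ := exists_argmin z
  have pi := hpos i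
  have pj := hpos j
  have pk := hpos k
  have c1 := hc i j k hij hik hjk 0 1 rfl
  have c2 := hc i j k hij hik hjk 1 0 rfl
  have c3 := hc i k j hik hij (Ne.symm hjk) 0 1 rfl
  have c4 := hc i k j hik hij (Ne.symm hjk) 1 0 rfl
  have c5 := hc j k i hjk (Ne.symm hij) (Ne.symm hik) 0 1 rfl
  have c6 := hc j k i hjk (Ne.symm hij) (Ne.symm hik) 1 0 rfl
  simp only [pow_zero, pow_one, one_mul] at c1 c2 c3 c4 c5 c6
  by_cases hA : (1 + β) * z k < β * (z i + z j)
  · apply rep_of_div h0 k
    apply rep_one h0 h1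
    · intro c
      split_ifs
      · exact div_pos (hpos c) h0
      · exact hpos c
    · apply cond_zero_of hij hik hjk
      · simp only [if_neg hik, if_neg hjk, if_true]
        rw [← mul_div_assoc, div_le_iff₀ h0]
        linarith
      · simp only [if_neg hik, if_neg hjk, if_true]
        rw [← sub_le_iff_le_add', le_div_iff₀ h0]
        nlinarith
      · simp only [if_neg hik, if_neg hjk, if_true]
        rw [← sub_le_iff_le_add', le_div_iff₀ h0]
        nlinarith
  · push Not at hA
    by_cases hB : (1 + β) * z i ≤ β * (z j + z k)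
    · apply rep_of_div h0 i
      apply rep_one h0 h1
      · intro c
        split_ifs
        · exact div_pos (hpos c) h0
        · exact hpos c
      · apply cond_zero_of hij hik hjk
        · simp only [if_neg (Ne.symm hik), if_neg (Ne.symm hij), if_true]
          rw [← sub_le_iff_le_add, le_div_iff₀ h0]
          nlinarith [mul_pos h0 pk, mul_pos h0 h0]
        · simp only [if_neg (Ne.symm hik), if_neg (Ne.symm hij), if_true]
          rw [← sub_le_iff_le_add, le_div_iff₀ h0]
          nlinarith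
        · simp only [if_neg (Ne.symm hik), if_neg (Ne.symm hij), if_true]
          rw [← mul_div_assoc, div_le_iff₀ h0]
          linarith
    · push Not at hB
      -- intermediate value theorem along the edge of mixtures of `i` and `j`
      let f : ℝ → ℝ := fun t => z j * (β + (1 - β) * t) + z k * ((β + (1 - β) * t) * (1 - (1 - β) * t))
        - (1 + β) * z i * (1 - (1 - β) * t)
      have hcont : ContinuousOn f (Set.Icc 0 1) := by
        apply Continuous.continuousOn
        fun_prop
      have hivt := intermediate_value_Icc (zero_le_one : (0:ℝ) ≤ 1) hcont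
      have hf0 : f 0 ≤ 0 := by
        simp only [f]
        nlinarith
      have hf1 : 0 ≤ f 1 := by
        simp only [f]
        nlinarith
      obtain ⟨t, ⟨ht0, ht1⟩, ht⟩ := hivt ⟨hf0, hf1⟩
      set X := β + (1 - β) * t with hX
      set Y := 1 - (1 - β) * t with hY
      have hXY : X + Y = 1 + β := by rw [hX, hY]; ring
      have hXb : β ≤ X := by rw [hX]; nlinarith
      have hX1 : X ≤ 1 := by rw [hX]; nlinarith
      have hXpos : 0 < X := by linarith
      have hYb : β ≤ Y := by rw [hY]; nlinarith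
      have hYpos : 0 < Y := by linarith
      have hf : z j * X + z k * (X * Y) = (1 + β) * z i * Y := by
        have : z j * X + z k * (X * Y) - (1 + β) * z i * Y = 0 := ht
        linarith
      -- the quotient
      let z' : Fin 3 → ℝ := fun c => if c = i then z i / X else if c = j then z j / Y else z c
      have zi' : z' i = z i / X := by simp [z']
      have zj' : z' j = z j / Y := by simp [z', Ne.symm hij]
      have zk' : z' k = z k := by simp [z', Ne.symm hik, Ne.symm hjk]
      have hi' : (1 + β) * (z i / X) = z j / Y + z k := by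
        field_simp
        linarith
      have hxy4 : X * Y * (1 + β) ≤ X + Y := by
        rw [hXY]
        have : X * Y ≤ 1 := by nlinarith [sq_nonneg (X - Y)]
        nlinarith
      have hk' : (1 + β) * z k ≤ z i / X + z j / Y := by
        rw [div_add_div _ _ hXpos.ne' hYpos.ne', le_div_iff₀ (mul_pos hXpos hYpos)]
        have e1 : z k * (X * Y * (1 + β)) ≤ z k * (X + Y) := mul_le_mul_of_nonneg_left hxy4 pk.le
        have e2 := mul_le_mul_of_nonneg_right hki hYpos.le
        have e3 := mul_le_mul_of_nonneg_left hkj hXpos.le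
        calc (1 + β) * z k * (X * Y) = z k * (X * Y * (1 + β)) := by ring
          _ ≤ z k * (X + Y) := e1
          _ = z k * Y + X * z k := by ring
          _ ≤ z i * Y + X * z j := add_le_add e2 e3
      have hj' : (1 + β) * (z j / Y) ≤ z i / X + z k := by
        -- write `z i = w₁ X`, `z j = w₂ Y`
        set w1 := z i / X with hw1
        set w2 := z j / Y with hw2
        have ei : z i = w1 * X := by rw [hw1]; field_simp
        have ej : z j = w2 * Y := by rw [hw2]; field_simp
        have w2pos : 0 < w2 := div_pos pj hYpos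
        rw [ei, ej] at hA
        -- it suffices that `β w₂ ≤ z k`
        have hkey : β * w2 ≤ z k := by
          by_contra hlt
          push Not at hlt
          have h5 : (1 + β) * w1 = w2 + z k := hi'
          have h6 : (1 + β) * (β * (w1 * X + w2 * Y)) ≤ (1 + β) * ((1 + β) * z k) :=
            mul_le_mul_of_nonneg_left hA (by linarith)
          have h7 : (1 + β) * (β * (w1 * X + w2 * Y)) = β * ((w2 + z k) * X + (1 + β) * w2 * Y) := by
            rw [← h5]; ring
          rw [h7] at h6
          have hYe : Y = 1 + β - X := by linarith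
          rw [hYe] at h6
          -- `β w₂ (X + (1+β)(1+β-X)) ≤ z k ((1+β)² - β X)`
          have h8 : β * w2 * ((1 + β) * (1 + β) - β * X) ≤ z k * ((1 + β) * (1 + β) - β * X) := by
            linarith
          have h9 : 0 < (1 + β) * (1 + β) - β * X := by
            have e1 : β * X ≤ β * 1 := mul_le_mul_of_nonneg_left hX1 h0.le
            have e2 : 0 < β * β := mul_pos h0 h0
            linarith
          have := le_of_mul_le_mul_right h8 h9
          linarith
        have e1 := mul_le_mul_of_nonneg_left hkey (by linarith : (0:ℝ) ≤ 2 + β)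
        have e2 : (1 + β) * ((1 + β) * w2) ≤ (1 + β) * (w1 + z k) := by linarith
        exact le_of_mul_le_mul_left e2 (by linarith)
      have hrep : Rep β 1 z' := by
        apply rep_one h0 h1
        · intro c
          simp only [z']
          split_ifs
          · exact div_pos pi hXpos
          · exact div_pos pj hYpos
          · exact hpos c
        · apply cond_zero_of hij hik hjk
          · rw [zi', zj', zk']; exact hk'
          · rw [zi', zj', zk']; exact hj'
          · rw [zi', zj', zk']; exact hi'.le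
      let y : Fin 3 → ℝ := fun c => if c = i then 1 - t else if c = j then t else 0
      have yi : y i = 1 - t := by simp [y]
      have yj : y j = t := by simp [y, Ne.symm hij]
      have yk : y k = 0 := by simp [y, Ne.symm hik, Ne.symm hjk]
      have hy : y ∈ stdSimplex ℝ (Fin 3) := by
        constructor
        · intro c
          simp only [y]
          split_ifs
          · linarith
          · exact ht0
          · exact le_rfl
        · rw [sum3 hij hik hjk, yi, yj, yk]; ring
      apply rep_succ hrep hy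
      intro c
      have hcc : c = i ∨ c = j ∨ c = k := by
        clear * - hij hik hjk
        revert i j k c; decide
      rcases hcc with rfl | rfl | rfl
      · rw [zi', yi]
        have : 1 - (1 - β) * (1 - t) = X := by rw [hX]; ring
        rw [this]; field_simp
      · rw [zj', yj]
        have : 1 - (1 - β) * t = Y := by rw [hY]
        rw [this]; field_simp
      · rw [zk', yk]; ring

lemma rep_all {β : ℝ} (h0 : 0 < β) (h1 : β < 1) : ∀ (D : ℕ) {z : Fin 3 → ℝ}, (∀ c, 0 < z c) →
    Cond β D z → Rep β (D + 1) z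
  | 0, _, hpos, hc => rep_one h0 h1 hpos hc
  | 1, _, hpos, hc => rep_two h0 h1 hpos hc
  | (D + 2), z, hpos, hc => by
    obtain ⟨i, j, k, hij, hik, hjk, hki, hkj⟩ := exists_argmin z
    have pk := hpos k
    apply rep_of_div h0 k
    apply rep_all h0 h1 (D + 1)
    · intro c
      split_ifs
      · exact div_pos (hpos c) h0
      · exact hpos c
    · -- the first kind of inequality
      have key1 : ∀ i' j' : Fin 3, i' ≠ k → j' ≠ k → z k ≤ z i' → z k ≤ z j' → ∀ a a', a + a' = D + 1 →
          (1 + β) * β ^ (D + 1) * (z k / β) ≤ β ^ a * z i' + β ^ a' * z j' := by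
        intro i' j' _ _ h5 h6 a a' haa
        have e1 : (1 + β) * β ^ (D + 1) * (z k / β) = (1 + β) * β ^ D * z k := by
          rw [pow_succ]; field_simp
        rw [e1]
        have e2 : β ^ a * z k + β ^ a' * z k ≤ β ^ a * z i' + β ^ a' * z j' := by
          have := mul_le_mul_of_nonneg_left h5 (by positivity : 0 ≤ β ^ a)
          have := mul_le_mul_of_nonneg_left h6 (by positivity : 0 ≤ β ^ a')
          linarith
        have e3 : (1 + β) * β ^ D ≤ β ^ a + β ^ a' := by
          rcases Nat.eq_zero_or_pos a' with h | h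
          · have ha : a = D + 1 := by omega
            rw [h, ha, pow_succ, pow_zero]
            have : β ^ D ≤ 1 := pow_le_one₀ h0.le h1.le
            nlinarith
          · have ha : a ≤ D := by omega
            have ha' : a' ≤ D + 1 := by omega
            have e4 : β ^ D ≤ β ^ a := pow_le_pow_of_le_one h0.le h1.le ha
            have e5 : β ^ (D + 1) ≤ β ^ a' := pow_le_pow_of_le_one h0.le h1.le ha'
            rw [pow_succ] at e5
            nlinarith
        nlinarith [mul_le_mul_of_nonneg_right e3 pk.le]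
      -- the second kind
      have key2 : ∀ i' j' : Fin 3, i' ≠ j' → i' ≠ k → j' ≠ k → ∀ a a', a + a' = D + 1 →
          (1 + β) * β ^ (D + 1) * z j' ≤ β ^ a * (z k / β) + β ^ a' * z i' := by
        intro i' j' h4 h5 h6 a a' haa
        have := hc k i' j' (Ne.symm h5) (Ne.symm h6) h4 a (a' + 1) (by omega)
        have e1 : (1 + β) * β ^ (D + 2) * z j' = β * ((1 + β) * β ^ (D + 1) * z j') := by
          rw [pow_succ β (D + 1)]; ring
        have e2 : β ^ a * z k + β ^ (a' + 1) * z i' = β * (β ^ a * (z k / β) + β ^ a' * z i') := by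
          rw [pow_succ]; field_simp
        rw [e1, e2] at this
        exact le_of_mul_le_mul_left this h0
      have hmin : ∀ c, z k ≤ z c := by
        intro c
        have hcc : c = i ∨ c = j ∨ c = k := by
          clear * - hij hik hjk
          revert i j k c; decide
        rcases hcc with rfl | rfl | rfl
        · exact hki
        · exact hkj
        · exact le_rfl
      intro i' j' k' h4 h5 h6 a a' haa
      by_cases hk : k' = k
      · rw [hk] at h5 h6
        simp only [hk, if_true, if_neg h5, if_neg h6]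
        exact key1 i' j' h5 h6 (hmin i') (hmin j') a a' haa
      · by_cases hi : i' = k
        · have hj : j' ≠ k := by rw [← hi]; exact Ne.symm h4
          simp only [if_neg hk, hi, if_true, if_neg hj]
          exact key2 j' k' h6 hj hk a a' haa
        · by_cases hj : j' = k
          · simp only [if_neg hk, if_neg hi, hj, if_true]
            have := key2 i' k' h5 hi hk a' a (by omega)
            linarith
          · exfalso
            clear * - h4 h5 h6 hk hi hj
            revert i' j' k' k; decide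

theorem convex_three {β : ℝ} (h0 : 0 < β) (h1 : β < 1) (D : ℕ) :
    Convex ℝ (bpImageProd (pottsMatrix 3 β) (D + 1)) := by
  have hset : bpImageProd (pottsMatrix 3 β) (D + 1) =
      {x | (∀ c, 0 < x c) ∧ ∑ c, x c = 1 ∧ Cond β D x} := by
    ext x
    constructor
    · intro hx
      obtain ⟨p, hp, h⟩ := mem_iff.1 hx
      have hGpos : ∀ c, 0 < ∏ i, (1 - (1 - β) * p i c) := by
        intro c
        apply Finset.prod_pos
        intro i _
        have h2 : p i c ≤ 1 := by
          calc p i c ≤ ∑ b, p i b := Finset.single_le_sum (fun b _ => (hp i).1 b) (Finset.mem_univ c)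
            _ = 1 := (hp i).2
        have h3 : 0 ≤ p i c := (hp i).1 c
        nlinarith
      have hSpos : 0 < ∑ b, ∏ i, (1 - (1 - β) * p i b) :=
        Finset.sum_pos (fun c _ => hGpos c) Finset.univ_nonempty
      refine ⟨fun c => ?_, ?_, ?_⟩
      · rw [h c]; exact div_pos (hGpos c) hSpos
      · simp_rw [h]
        rw [← Finset.sum_div]
        exact div_self hSpos.ne'
      · intro i j k hij hik hjk a a' haa
        have := cond_prod h0 h1 p hp i j k hij hik hjk a a' haa
        simp only at this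
        rw [h i, h j, h k, ← mul_div_assoc, ← mul_div_assoc, ← mul_div_assoc, ← add_div]
        exact div_le_div_of_nonneg_right this hSpos.le
    · rintro ⟨hpos, hsum, hc⟩
      obtain ⟨p, hp, κ, hκ, hz⟩ := rep_all h0 h1 D hpos hc
      rw [mem_iff]
      refine ⟨p, hp, fun c => ?_⟩
      have hs : κ * ∑ b, ∏ i, (1 - (1 - β) * p i b) = 1 := by
        have h5 : κ * ∑ b, ∏ i, (1 - (1 - β) * p i b) = ∑ c, x c := by
          rw [Finset.mul_sum]
          exact Finset.sum_congr rfl (fun c _ => (hz c).symm)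
        rw [h5, hsum]
      have hS : (∑ b, ∏ i, (1 - (1 - β) * p i b)) ≠ 0 := by
        intro h5
        rw [h5, mul_zero] at hs
        exact zero_ne_one hs
      rw [hz c, eq_div_iff hS]
      calc κ * (∏ i, (1 - (1 - β) * p i c)) * ∑ b, ∏ i, (1 - (1 - β) * p i b)
          = (κ * ∑ b, ∏ i, (1 - (1 - β) * p i b)) * ∏ i, (1 - (1 - β) * p i c) := by ring
        _ = _ := by rw [hs, one_mul]
  rw [hset]
  rintro x ⟨hx1, hx2, hx3⟩ y ⟨hy1, hy2, hy3⟩ a b ha hb hab
  refine ⟨fun c => ?_, ?_, ?_⟩
  · simp only [Pi.add_apply, Pi.smul_apply, smul_eq_mul]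
    rcases ha.lt_or_eq with h | h
    · have := mul_pos h (hx1 c)
      have := mul_nonneg hb (hy1 c).le
      linarith
    · have hb1 : b = 1 := by linarith
      rw [← h, hb1]
      have := hy1 c
      linarith
  · simp only [Pi.add_apply, Pi.smul_apply, smul_eq_mul, Finset.sum_add_distrib, ← Finset.mul_sum,
      hx2, hy2]
    linarith
  · intro i j k hij hik hjk c c' hcc
    have e1 := mul_le_mul_of_nonneg_left (hx3 i j k hij hik hjk c c' hcc) ha
    have e2 := mul_le_mul_of_nonneg_left (hy3 i j k hij hik hjk c c' hcc) hb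
    simp only [Pi.add_apply, Pi.smul_apply, smul_eq_mul]
    linarith

/-- **Main theorem.** For all `q ≥ 3`, `d ≥ 1` and all `β` with `max{0, 1 - q/(d+1)} ≤ β ≤ 1`, the
image `𝓕^prod_{A,d}` of the product measures under the belief-propagation map of the
antiferromagnetic Potts matrix is convex exactly when `q = 3`, or `d = 1`, or `β = 1`, or
(`β = 0` and `q = d + 1`). -/
theorem main (q d : ℕ) (hq : 3 ≤ q) (hd : 1 ≤ d) (β : ℝ)
    (hβ0 : max 0 (1 - (q : ℝ) / ((d : ℝ) + 1)) ≤ β) (hβ1 : β ≤ 1) :
    Convex ℝ (bpImageProd (pottsMatrix q β) d) ↔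
      (q = 3 ∨ d = 1 ∨ β = 1 ∨ (β = 0 ∧ q = d + 1)) := by
  have h0 : 0 ≤ β := le_trans (le_max_left _ _) hβ0
  have h1 : 1 - (q : ℝ) / ((d : ℝ) + 1) ≤ β := le_trans (le_max_right _ _) hβ0
  have hdq : β = 0 → d < q := by
    intro h
    rw [h] at h1
    have hd' : (0:ℝ) < (d : ℝ) + 1 := by positivity
    have : 1 ≤ (q : ℝ) / ((d : ℝ) + 1) := by linarith
    rw [le_div_iff₀ hd'] at this
    have : (d : ℝ) + 1 ≤ q := by linarith
    have : d + 1 ≤ q := by exact_mod_cast this
    omega
  constructor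
  · intro hconv
    by_contra hno
    push Not at hno
    obtain ⟨hq3, hd1, hb1, hb0⟩ := hno
    obtain ⟨e, rfl⟩ : ∃ e, d = e + 2 := ⟨d - 2, by omega⟩
    rcases h0.lt_or_eq with h | h
    · exact notConvex_pos (by omega) h (lt_of_le_of_ne hβ1 hb1) hconv
    · subst h
      have := hdq rfl
      have := hb0 rfl
      exact notConvex_zero (by omega) hconv
  · intro hor
    by_cases hb1 : β = 1
    · rw [hb1]; exact convex_one
    have hlt : β < 1 := lt_of_le_of_ne hβ1 hb1
    by_cases hd1 : d = 1
    · rw [hd1]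
      apply convex_single
      have : (3:ℝ) ≤ q := by exact_mod_cast hq
      intro h
      linarith
    rcases h0.lt_or_eq with h | h
    · have hq3 : q = 3 := by
        rcases hor with h' | h' | h' | h'
        · exact h'
        · exact absurd h' hd1
        · exact absurd h' hb1
        · exact absurd h'.1 h.ne'
      subst hq3
      obtain ⟨D, rfl⟩ : ∃ D, d = D + 1 := ⟨d - 1, by omega⟩
      exact convex_three h hlt D
    · subst h
      have hlt' := hdq rfl
      have hqd : q = d + 1 := by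
        rcases hor with h' | h' | h' | h'
        · omega
        · exact absurd h' hd1
        · exact absurd h' hb1
        · exact h'.2
      subst hqd
      exact convex_zero

end Pool.Agent.Lib_MP_d064d6_lc
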